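import Pool.Agent.MP_e5f80e_lc.Final

/-!
Undecidability of the existence of `p` such that a morphic word avoids abelian `k`-th powers of
period at least `p` (question Q2).
-/

set_option autoImplicit false

namespace Pool.Agent.Results.MP_e5f80e_lc.LongPowersUndecidable

/-- The morphism with letter images `hm` (the letters are `0, ..., hm.length - 1`), on words. -/
def morph (hm : List (List ℕ)) (w : List ℕ) : List ℕ := w.flatMap (fun c => hm.getD c [])

/-- `hm` is a morphism on the letters `0, ..., hm.length - 1`, prolongable on the letter `a`, and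
`τ` is a coding of these letters. -/
def Valid (hm : List (List ℕ)) (τ : List ℕ) (a : ℕ) : Prop :=
  (∀ w ∈ hm, ∀ c ∈ w, c < hm.length) ∧ τ.length = hm.length ∧ a < hm.length ∧
    (hm.getD a []).head? = some a ∧ 2 ≤ (hm.getD a []).length ∧
    ∀ m : ℕ, (morph hm)^[m] (hm.getD a []).tail ≠ []

/-- The letter at position `n` of the infinite word `τ(h^ω(a))`. -/
def letter (hm : List (List ℕ)) (τ : List ℕ) (a n : ℕ) : ℕ :=
  τ.getD (((morph hm)^[n + 1] [a]).getD n 0) 0

/-- The infinite word `τ(h^ω(a))` avoids abelian `k`-th powers of period at least `p`: there are no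
`k` consecutive blocks of the same length `ℓ ≥ p` with equal Parikh vectors. -/
def Avoids (hm : List (List ℕ)) (τ : List ℕ) (a k p : ℕ) : Prop :=
  ¬ ∃ i ℓ : ℕ, p ≤ ℓ ∧ ∀ j < k, ∀ b : ℕ,
    ((Finset.range ℓ).filter (fun t => letter hm τ a (i + j * ℓ + t) = b)).card =
    ((Finset.range ℓ).filter (fun t => letter hm τ a (i + t) = b)).card

/-- There is `K ≥ 2` such that for every exponent `k ≥ K`, no computable function is correct, on all
inputs with this exponent, about the existence of `p ≥ 1` such that the morphic word avoids abelian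
`k`-th powers of period at least `p`. In particular the problem Q2 is undecidable. -/
theorem result : ∃ K : ℕ, 2 ≤ K ∧ ∀ k : ℕ, K ≤ k →
    ¬ ∃ f : List (List ℕ) × List ℕ × ℕ × ℕ → Bool, Computable f ∧
      ∀ (hm : List (List ℕ)) (τ : List ℕ) (a : ℕ), Valid hm τ a →
        (f (hm, τ, a, k) = true ↔ ∃ p : ℕ, 1 ≤ p ∧ Avoids hm τ a k p) := by
  obtain ⟨K, hK, hred⟩ := Pool.Agent.AbPow.reduction
  refine ⟨K, hK, ?_⟩
  rintro k hk ⟨f, hf, hspec⟩
  obtain ⟨hmF, tF, hh, ht, hall⟩ := hred k hk
  apply Pool.Agent.AbPow.TMsim.univ_undecidable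
  have hcomp : Computable (fun n : ℕ => !(f (hmF n, tF n, 0, k))) := by
    apply Primrec.not.to_comp.comp
    apply hf.comp
    exact (hh.pair (ht.pair ((Primrec.const 0).pair (Primrec.const k)))).to_comp
  refine ComputablePred.computable_iff.2 ⟨_, hcomp, ?_⟩
  funext n
  apply propext
  obtain ⟨h1, h2, h3, h4, h5, h6, h7⟩ := hall n
  have h8 := hspec (hmF n) (tF n) 0 ⟨h1, h2, h3, h4, h5, h6⟩
  have h9 : ∀ p, 1 ≤ p → (Avoids (hmF n) (tF n) 0 k p ↔
      ¬ (Pool.Agent.AbPow.TMsim.univF n).Dom) := fun p hp => not_congr (h7 p hp)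
  have h10 : (∃ p : ℕ, 1 ≤ p ∧ Avoids (hmF n) (tF n) 0 k p) ↔
      ¬ (Pool.Agent.AbPow.TMsim.univF n).Dom :=
    ⟨fun ⟨p, hp, h⟩ => (h9 p hp).1 h, fun h => ⟨1, le_rfl, (h9 1 le_rfl).2 h⟩⟩
  rw [h10] at h8
  cases hv : f (hmF n, tF n, 0, k)
  · rw [hv] at h8
    simp only [Bool.false_eq_true, false_iff, not_not] at h8
    simp [h8]
  · rw [hv] at h8
    simp only [true_iff] at h8
    simp [h8]

end Pool.Agent.Results.MP_e5f80e_lc.LongPowersUndecidable
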